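import Mathlib
import Pool.Agent.T3h26.AS.Final

/-!
# The k-fold Erdős–Szemerédi conjecture for automatic sets and for sets of bounded width

An automatic set is a set of natural numbers recognised by a finite automaton that reads the digits in
a fixed base `g` (for instance the integers with digits in a given set, the numbers with an even sum
of digits, the powers of `g`, all finite unions, intersections and complements of such sets). We show
that for every automatic set `S`, every nonconstant integer polynomial `f` and every `k` the sets
`A = {f(n) : n ∈ S, n < N}` satisfy the conjecture `max (|kA|, |A ^ k|) ≥ c |A| ^ (k - ε)`, with a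
constant that depends on `S`, `f`, `k`, `ε` only.

There is a dichotomy. If no state that occurs before the last digit of an element of `S` lies on two
different closed walks of the same length, then the integer `(g ^ L - 1) n` is a sum of boundedly many
integers composed of the primes of a finite set, for all `n ∈ S` and a suitable `L`, because closed
walks commute, and `|kA| ≥ c |A| ^ k` for ALL finite sets `A` of values of `f` at elements of `S`, by
the unit equation (starting library `N449.SP`). Otherwise `S` has at least `N ^ θ` elements below `N`,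
and the product sets of the values of `f` are almost maximal, also for all subsets of positive relative
density and uniformly in `f` of bounded degree.

The second alternative is a special case of a theorem on finite sets of width at most `w`, with at
least `g ^ (θ m)` elements, all below `g ^ m`: the numbers `a < g ^ i` can be divided into `w` classes
such that the question whether `a + g ^ i b` belongs to the set depends only on `b` and the class of
`a`. Proof. Divide the digits into windows of length `C`. Most elements have a window whose content
has at least `M` alternatives that do not change the classes at its two ends, since `g ^ (C θ / 2)` is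
larger than `M w`. Replacing the content of the first such window divides these elements into groups
which are contained in progressions of length `g ^ C` whose difference is a power of `g`. By Lagrange's
formula a power of a prime `p` that does not divide `g`, if it is larger than
`(g ^ C) ^ (d (d + 1))`, divides at most `d` of the values in a group of a polynomial with coprime
coefficients. So the values have no primes with spread valuations, except for the divisors of `g`, and
the theorem `R849.SV.spread` of the starting library applies.
-/

set_option autoImplicit false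

namespace Pool.Agent.Results.MP_120218_co.AutomaticSets

open Finset
open scoped Classical

/-- The set `kA` of the sums of `k` elements of `A`. -/
noncomputable def sums (k : ℕ) (A : Finset ℤ) : Finset ℤ :=
  (Fintype.piFinset fun _ : Fin k => A).image fun f => ∑ i, f i

/-- The set `A ^ k` of the products of `k` elements of `A`. -/
noncomputable def products (k : ℕ) (A : Finset ℤ) : Finset ℤ :=
  (Fintype.piFinset fun _ : Fin k => A).image fun f => ∏ i, f i

/-- The set `S` is recognised by a finite automaton (states `Q`, transitions `δ`, initial state `q₀`,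
accepting states `F`) that reads the digits in base `g`, the least significant digit first. -/
def Automatic (g : ℕ) (S : Set ℕ) : Prop :=
  ∃ (Q : Type) (_ : Finite Q) (δ : Q → ℕ → Q) (q₀ : Q) (F : Set Q),
    ∀ n, n ∈ S ↔ (Nat.digits g n).foldl δ q₀ ∈ F

/-- the elements of `S` below `N` -/
noncomputable def below (S : Set ℕ) (N : ℕ) : Finset ℕ := (range N).filter fun x => x ∈ S

/-- the values of `f` on `B` -/
noncomputable def values (f : Polynomial ℤ) (B : Finset ℕ) : Finset ℤ :=
  B.image fun x : ℕ => f.eval (x : ℤ)

/-- For every `i` the numbers `a < g ^ i` are divided into `w` classes such that the question whether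
`a + g ^ i b` is in `A` depends only on `b` and on the class of `a`. -/
def WidthAtMost (g w : ℕ) (A : Finset ℕ) : Prop :=
  ∀ i : ℕ, ∃ σ : ℕ → Fin w, ∀ a < g ^ i, ∀ a' < g ^ i, σ a = σ a' →
    ∀ b, (a + g ^ i * b ∈ A ↔ a' + g ^ i * b ∈ A)

/-- the values of all polynomials `f` of degree between `1` and `d` on `B`, unless they are all `0`,
have at least `c |B| ^ (k - ε)` products of `k` nonzero values -/
def ManyProducts (k d : ℕ) (ε c : ℝ) (B : Finset ℕ) : Prop :=
  ∀ f : Polynomial ℤ, 1 ≤ f.natDegree → f.natDegree ≤ d → ((values f B).erase 0).Nonempty →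
    c * (B.card : ℝ) ^ ((k : ℝ) - ε) ≤ (products k ((values f B).erase 0)).card

theorem result :
    -- the conjecture for the values of polynomials on initial segments of automatic sets
    (∀ g : ℕ, 2 ≤ g → ∀ S : Set ℕ, Automatic g S → ∀ f : Polynomial ℤ, 1 ≤ f.natDegree →
      ∀ k : ℕ, 1 ≤ k → ∀ ε : ℝ, 0 < ε → ∃ c : ℝ, 0 < c ∧
        ∀ N : ℕ, (values f (below S N)).Nonempty →
          c * ((values f (below S N)).card : ℝ) ^ ((k : ℝ) - ε) ≤
            max ((sums k (values f (below S N))).card : ℝ)
              ((products k (values f (below S N))).card : ℝ)) ∧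
    -- the dichotomy: all finite sets of values have many sums, or all dense sets of values have
    -- many products
    (∀ g : ℕ, 2 ≤ g → ∀ S : Set ℕ, Automatic g S →
      (∀ (f : Polynomial ℤ) (k : ℕ), ∃ C : ℕ, ∀ A : Finset ℤ,
        (∀ a ∈ A, ∃ n ∈ S, a = f.eval (n : ℤ)) → A.card ^ k ≤ C * (sums k A).card) ∨
      (∀ k : ℕ, 1 ≤ k → ∀ ε : ℝ, 0 < ε → ∀ (d : ℕ) (K : ℝ), ∃ c : ℝ, 0 < c ∧
        ∀ (N : ℕ) (B : Finset ℕ), B ⊆ below S N → ((below S N).card : ℝ) ≤ K * B.card →
          ManyProducts k d ε c B)) ∧
    -- sets of bounded width
    (∀ k : ℕ, 1 ≤ k → ∀ ε : ℝ, 0 < ε → ∀ d g w : ℕ, 2 ≤ g → ∀ θ K : ℝ, 0 < θ →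
      ∃ c : ℝ, 0 < c ∧ ∀ (m : ℕ) (A : Finset ℕ), (∀ x ∈ A, x < g ^ m) → WidthAtMost g w A →
        (g : ℝ) ^ (θ * m) ≤ A.card → ∀ B ⊆ A, (A.card : ℝ) ≤ K * B.card →
          ManyProducts k d ε c B) := by
  have hvals : ∀ (f : Polynomial ℤ) (B : Finset ℕ),
      Pool.Agent.R849.SV.vals f (B.image fun x : ℕ => (x : ℤ)) = (values f B).erase 0 := by
    intro f B
    unfold Pool.Agent.R849.SV.vals values
    rw [image_image]
    rfl
  have hexp : ∀ (k : ℕ) (ε : ℝ) (B : Finset ℕ), B.Nonempty →
      (B.card : ℝ) ^ ((k : ℝ) - ε) ≤ (B.card : ℝ) ^ ((k : ℝ) - min ε 1) := by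
    intro k ε B hB
    have h1 : (1 : ℝ) ≤ B.card := by exact_mod_cast card_pos.2 hB
    exact Real.rpow_le_rpow_of_exponent_le h1 (by linarith [min_le_left ε 1])
  have hne : ∀ (f : Polynomial ℤ) (B : Finset ℕ), ((values f B).erase 0).Nonempty → B.Nonempty := by
    intro f B h
    obtain ⟨a, ha⟩ := h
    rw [mem_erase] at ha
    unfold values at ha
    obtain ⟨x, hx, -⟩ := mem_image.1 ha.2
    exact ⟨x, hx⟩
  have hseg : ∀ S N, Pool.Agent.T3h26.AS.seg S N = below S N := fun _ _ => rfl
  have hpk : ∀ k A, Pool.Agent.Y359.PE.pk k A = products k A := fun _ _ => rfl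
  have hsk : ∀ k A, Pool.Agent.Y359.PE.sk k A = sums k A := fun _ _ => rfl
  refine ⟨?_, ?_, ?_⟩
  · intro g hg S hS f hf k hk ε hε
    have hkr : (1 : ℝ) ≤ k := by exact_mod_cast hk
    have hm0 : 0 < min ε 1 := lt_min hε one_pos
    rcases Pool.Agent.T3h26.AS.dichotomy g hg S hS with h | h
    · obtain ⟨C, hC⟩ := h f k
      refine ⟨1 / (C + 1), by positivity, fun N hA => ?_⟩
      set A := values f (below S N) with hAdef
      have hA1 : (1 : ℝ) ≤ A.card := by exact_mod_cast card_pos.2 hA
      have h1 := hC A (by
        intro a ha
        rw [hAdef] at ha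
        unfold values at ha
        obtain ⟨x, hx, rfl⟩ := mem_image.1 ha
        exact ⟨x, (mem_filter.1 hx).2, rfl⟩)
      rw [hsk] at h1
      have h2 : (A.card : ℝ) ^ k ≤ C * (sums k A).card := by exact_mod_cast h1
      have h3 : (A.card : ℝ) ^ ((k : ℝ) - ε) ≤ (A.card : ℝ) ^ k := by
        rw [← Real.rpow_natCast]
        exact Real.rpow_le_rpow_of_exponent_le hA1 (by linarith)
      refine le_trans ?_ (le_max_left _ _)
      rw [one_div, ← div_eq_inv_mul, div_le_iff₀ (by positivity)]
      have h4 : (0 : ℝ) ≤ (sums k A).card := Nat.cast_nonneg _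
      nlinarith
    · obtain ⟨c, hc, h⟩ := h k hk (min ε 1) hm0 (min_le_right _ _) f.natDegree 1 le_rfl
      refine ⟨min c 1, lt_min hc one_pos, fun N hA => ?_⟩
      set A := values f (below S N) with hAdef
      have hA1 : (1 : ℝ) ≤ A.card := by exact_mod_cast card_pos.2 hA
      have hA2 : (A.card : ℝ) ^ ((k : ℝ) - ε) ≤ (A.card : ℝ) ^ ((k : ℝ) - min ε 1) :=
        Real.rpow_le_rpow_of_exponent_le hA1 (by linarith [min_le_left ε 1])
      by_cases hV : ((values f (below S N)).erase 0).Nonempty
      · have h1 := h N (below S N) (Subset.refl _) (by rw [hseg, one_mul]) f hf le_rfl (by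
          rw [hvals]
          exact hV)
        rw [hvals, hpk] at h1
        have h2 : (A.card : ℝ) ≤ (below S N).card := by
          rw [hAdef]
          unfold values
          exact_mod_cast card_image_le
        have h3 : (A.card : ℝ) ^ ((k : ℝ) - min ε 1) ≤
            ((below S N).card : ℝ) ^ ((k : ℝ) - min ε 1) :=
          Real.rpow_le_rpow (by linarith) h2 (by linarith [min_le_right ε 1])
        have h4 : ((products k (A.erase 0)).card : ℝ) ≤ (products k A).card := by
          have h5 : products k (A.erase 0) ⊆ products k A :=
            Pool.Agent.Y359.PE.pk_mono (erase_subset _ _)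
          exact_mod_cast card_le_card h5
        refine le_trans ?_ (le_max_right _ _)
        calc min c 1 * (A.card : ℝ) ^ ((k : ℝ) - ε) ≤
            c * ((below S N).card : ℝ) ^ ((k : ℝ) - min ε 1) :=
              mul_le_mul (min_le_left _ _) (hA2.trans h3) (by positivity) hc.le
          _ ≤ (products k (A.erase 0)).card := h1
          _ ≤ (products k A).card := h4
      · have h1 : A.card = 1 := by
          rw [not_nonempty_iff_eq_empty] at hV
          have h2 : A ⊆ {0} := by
            intro a ha
            rw [mem_singleton]
            by_contra h3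
            have : a ∈ A.erase 0 := mem_erase.2 ⟨h3, ha⟩
            rw [hAdef, hV] at this
            simp at this
          have h3 := card_le_card h2
          rw [card_singleton] at h3
          have := card_pos.2 hA
          omega
        have h2 : (1 : ℝ) ≤ (products k A).card := by
          have h3 : (products k A).Nonempty := Pool.Agent.Y359.PE.pk_nonempty hA
          exact_mod_cast card_pos.2 h3
        refine le_trans ?_ ((h2.trans (le_max_right _ _)))
        rw [h1, Nat.cast_one, Real.one_rpow, mul_one]
        exact min_le_right _ _
  · intro g hg S hS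
    rcases Pool.Agent.T3h26.AS.dichotomy g hg S hS with h | h
    · exact Or.inl h
    · right
      intro k hk ε hε d K
      obtain ⟨c, hc, h⟩ := h k hk (min ε 1) (lt_min hε one_pos) (min_le_right _ _) d (max K 1)
        (le_max_right _ _)
      refine ⟨c, hc, fun N B hB hBK f hf hfd hV => ?_⟩
      have h1 := h N B hB (hBK.trans (mul_le_mul_of_nonneg_right (le_max_left _ _)
        (Nat.cast_nonneg _))) f hf hfd (by
          rw [hvals]
          exact hV)
      rw [hvals, hpk] at h1
      exact (mul_le_mul_of_nonneg_left (hexp k ε B (hne f B hV)) hc.le).trans h1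
  · intro k hk ε hε d g w hg θ K hθ
    obtain ⟨c, hc, h⟩ := Pool.Agent.T3h26.AS.wide k hk (min ε 1) (lt_min hε one_pos)
      (min_le_right _ _) d g w hg θ (max K 1) hθ (le_max_right _ _)
    refine ⟨c, hc, fun m A hA hW hAc B hB hBK f hf hfd hV => ?_⟩
    have h1 := h m A hA hW hAc B hB (hBK.trans (mul_le_mul_of_nonneg_right (le_max_left _ _)
      (Nat.cast_nonneg _))) f hf hfd (by
        rw [hvals]
        exact hV)
    rw [hvals, hpk] at h1
    exact (mul_le_mul_of_nonneg_left (hexp k ε B (hne f B hV)) hc.le).trans h1

end Pool.Agent.Results.MP_120218_co.AutomaticSets
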