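import Pool.Agent.T4h92.BW.Robust
import Pool.Agent.T4h92.BW.Dec
import Pool.Agent.T2h26.BW.Det
import Pool.Agent.T2h26.BW.PR
import Pool.Agent.T2h26.BW.Fin
import Pool.Agent.T2h24.BW.DP

/-!
# The k-fold Erdős–Szemerédi conjecture for sets of bounded width

Families of width `w` (`Fam w k K L F`) are `w`-tuples `F 0, ..., F (w - 1)` of finite sets of positive
integers composed of the letters in `L`. The letters come in alphabets. An alphabet `X` may have any
size, but every number must have at most `K` ordered factorisations into `k` members of `X` (for
instance: `X` has a bounded number of members, or any two members of `X` are coprime). A leaf is any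
`w`-tuple of subsets of one alphabet. Two families `A`, `B` with coprime letters may be combined to a
family `C`, where each `C i` is a union of some of the `w ^ 2` product sets `A p * B q`.

So the members of a family of width `w` are the products of one letter from each alphabet which are
accepted by a (nondeterministic) tree automaton with `w` states. Examples: all product sets
`W_1 W_2 ⋯ W_m` of alphabets; the integers whose vector of prime exponents, bounded by a constant, is
in a regular language; the products of the letters chosen by the colourings, matchings, independent,
dominating or maximal independent sets of a graph of bounded tree-width, and all other families of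
configurations which are recognised along a tree decomposition.

Theorem. For all `k`, `w`, `K` and `ε > 0` there are `δ, c > 0` such that every member `F i` of a
family of width `w`, and every `A ⊇ F i` with `|A| ^ (1 - δ) ≤ |F i|`, satisfies
`|A ^ k| ≥ c |A| ^ (k - ε)` or `|k A + B| ≥ c |A| ^ (k - ε) |B| ^ (1 - ε)` for all finite nonempty sets
`B` of integers. No density is assumed, and both alternatives are needed (all sets of primes have
width two).

Proof. Let `H = log |F i|`. The tree is cut into pieces in such a way that, for a random element of
`F i` and a large constant `M`, the mean of the logarithm of the number of the possible contents of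
each piece (given the states at the cuts) is between `M / 2` and `M + 2 log w`, except for pieces which
consist of one leaf. There are at most `2 H / M` cuts, so at most `|F i| ^ δ` choices of the states at
the cuts, and for each choice the contents of the pieces are independent: `F i` is a union of
`|F i| ^ δ` direct products. Let `τ` be the mean number of pieces (other than single leaves) with more
than one possible content. If `τ ≤ θ H` then `k` random elements rarely have nontrivial contents in
the same piece, so that the product determines them up to `|F i| ^ ε` choices. If `τ > θ H` then one of
the direct products has size at least `c |F i| ^ (1 - δ)` and at least `θ H / 2` nontrivial factors,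
and the theorem on dilates of helper42 (`T2h42.GE.dilates`) applies: `|d X + B|` is almost
`|X| |B|` for a suitable product `d` of ratios `x_j` or `y_j` from few of the factors. Written with
helper24 (direct products), helper26 (products, determinisation, assembly) and helper42.

The file `Pool.Agent.T2h24.BW.FR` contains the case of conditions of finite range with small
separators and positive entropy (for instance on planar graphs), where the sums alone suffice.
-/

set_option autoImplicit false

namespace Pool.Agent.Results.MP_120218_co.BoundedWidth

open Finset Pool.Agent.T4h92.BW

/-- The conjecture for sets of bounded width and for sets which are only slightly larger. -/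
theorem result (k : ℕ) (hk : 1 ≤ k) (w K : ℕ) (ε : ℝ) (hε : 0 < ε) :
    ∃ δ c : ℝ, 0 < δ ∧ 0 < c ∧ ∀ (L : Finset ℕ) (F : Fin w → Finset ℕ), Fam w k K L F →
      ∀ (i : Fin w) (A : Finset ℕ), A.Nonempty → F i ⊆ A →
      (A.card : ℝ) ^ (1 - δ) ≤ (F i).card →
      c * (A.card : ℝ) ^ ((k : ℝ) - ε) ≤
          (((Fintype.piFinset fun _ : Fin k => A).image fun f => ∏ i, f i).card : ℝ) ∨
      ∀ B : Finset ℤ, B.Nonempty →
        c * (A.card : ℝ) ^ ((k : ℝ) - ε) * (B.card : ℝ) ^ (1 - ε) ≤
          ((((Fintype.piFinset fun _ : Fin k => A) ×ˢ B).image
            fun x => (∑ i, (x.1 i : ℤ)) + x.2).card : ℝ) :=
  robust (fin det t_DEC pr Pool.Agent.T2h24.BW.t_DP) k hk w K ε hε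

end Pool.Agent.Results.MP_120218_co.BoundedWidth
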