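import Pool.Agent.T2h42.V.Fin

/-!
# Sums of elements of dense subsets of lattices of integers

Let `Λ` be a finite set of positive integers closed under greatest common divisors and least common
multiples, and let `V ⊆ Λ` be up-closed: a member of `Λ` with a divisor in `V` is in `V`. For every
`k` and `ε > 0` there are `γ, c > 0`, independent of the sets, such that all sets `A₁, …, A_k` of
integers whose absolute values lie in such sets `V₁, …, V_k` satisfy
`|A₁ + … + A_k + B| ≥ c ∏ (|A_i| / |V_i|)^γ |A_i|^(1 - ε) |B|^(1 - ε)` for all finite nonempty
sets `B` of integers. So the sums of `k` elements of `A` alone are almost as numerous as possible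
when `|V| ≤ |A|^(1 + η)`; for example when the closure of `A` under gcd and lcm has at most
`|A|^(1 + η)` elements, or when `A` consists of the integers `N / d`, `d ∈ D`, for a set `D` of
divisors of `N` which contains the divisors of its members, or of many of them.

Method. (1) For a law `μ` on `A` we bound from below the entropy of `a + r` (`a` of law `μ`, `r`
uniform in an arbitrary set `R`). If `A` splits into multiples and nonmultiples of `p`, the entropy
of this bit is paid by the information which the residue modulo `p` gives and by the entropy of the
residue of `r`; this works with coefficient near one except in balanced splits in which the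
residues of the nonmultiples concentrate on few classes. (2) For an atom `p` of the lattice both
parts of `Λ` are lattices and both parts of `V` are up-closed. Either one atom makes progress
(almost all members of `A` are multiples of `p`, or the nonmultiples in `V` are few), or every atom
is missed by a positive proportion of the members of `A` and of `V`; then by the inequality of
Daykin there are at least `c log |V|` atoms. (3) In the second case we follow all the atoms in
decreasing order. The members with many missing atoms which lie often in heavy classes are
exponentially few in `V`: multiplying such a member `a` by the weights `t / o` of later missing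
atoms (`o` the bottom) gives a member `e` of `V`, and `a` is determined by `e` and a bounded amount
of information per atom, because the residues of `a` modulo the hit atoms determine the product of
the smaller weights. The missing atoms give a gain proportional to `log |V|`, since
`|V₀| ≤ |V₁|` for the two parts of an up-closed set. (4) This improves the exponent of `|V|` by a
constant depending on `ε` only; finitely many rounds give the theorem.

The entropy splitting was formalised by helper1, the injection by helper46, the choice of blocks by
helper60; the information inequality is that of the starting files.
-/

set_option autoImplicit false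

namespace Pool.Agent.Results.MP_120218_co.LatticeFilters

/-- Sums of elements of sets whose absolute values lie in up-closed parts `V i` of finite sets
`Λ i` of positive integers closed under gcd and lcm, with the dependence on the densities. -/
theorem result (k : ℕ) (ε : ℝ) (hε : 0 < ε) :
    ∃ γ c : ℝ, 0 < γ ∧ 0 < c ∧ ∀ (A : Fin k → Finset ℤ) (Λ V : Fin k → Finset ℕ) (B : Finset ℤ),
      (∀ i, ∀ a ∈ Λ i, 0 < a) →
      (∀ i, ∀ a ∈ Λ i, ∀ b ∈ Λ i, Nat.gcd a b ∈ Λ i ∧ Nat.lcm a b ∈ Λ i) →
      (∀ i, V i ⊆ Λ i) → (∀ i, ∀ a ∈ V i, ∀ b ∈ Λ i, a ∣ b → b ∈ V i) →
      (∀ i, (A i).Nonempty) → (∀ i, ∀ a ∈ A i, a.natAbs ∈ V i) → B.Nonempty →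
      c * (∏ i, (((A i).card : ℝ) / (V i).card) ^ γ * ((A i).card : ℝ) ^ (1 - ε)) *
          (B.card : ℝ) ^ (1 - ε) ≤
        ((((Fintype.piFinset A) ×ˢ B).image fun x => (∑ i, x.1 i) + x.2).card : ℝ) :=
  Pool.Agent.T2h42.V.dense_sums k ε hε

end Pool.Agent.Results.MP_120218_co.LatticeFilters
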