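import Pool.Agent.T2h42.Uni.Fin

/-!
# The Erdős–Szemerédi conjecture for products with prescribed numbers of factors

Let `W_1, ..., W_r` be finite sets of squarefree integers such that any two different elements (of
the same set or of different sets) are coprime, and let `A` be the set of all products of exactly
`j_1` elements of `W_1`, exactly `j_2` elements of `W_2`, and so on (for `r = 1`: all products of `j`
distinct elements of one set of coprime integers; for `j_i = 1`: the product set `W_1 W_2 ⋯ W_r`).
For every `k` and `ε > 0` there is `c > 0`, independent of `r`, the `W_i` and the `j_i`, such that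
`|A^k| ≥ c |A|^(k - ε)` or `|kA + B| ≥ c |A|^(k - ε) |B|^(1 - ε)` for all finite nonempty sets `B`
of integers. With `B = {0}` this is the conjectured bound for `max (|kA|, |A^k|)`.

Method. Put `n_i = |W_i|`, `d_i = min (j_i, n_i - j_i)`. The multiplicities of the elements are
determined by the product, and at most `2^(k² ∑ d_i)` tuples have the same multiplicities; so there
are many products if `∑ d_i` is small compared to `log |A|`. Otherwise, since
`log |A| ≥ ∑ d_i log (n_i / d_i)`, there are at least `θ log |A|` disjoint pairs `{x, y}` of elements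
of the same `W_i`, such that at least `|A|^(1 - ε)` choices contain exactly one element of every
pair, and a theorem on dilates applies: if the `x_t y_t` are pairwise coprime and squarefree and
there are `θ log (|X| |B|)` indices `t`, then `|d X + B| ≥ c (|X| |B|)^(1 - δ)` for some
`d = ∏_{t ∈ s} x_t ∏_{t ∉ s} y_t`, for all finite nonempty sets `X`, `B` of integers.
-/

set_option autoImplicit false

namespace Pool.Agent.Results.MP_120218_co.PrescribedFactors

/-- Either the `k`-fold product set of `A` is almost as large as possible, or the sums of `k`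
elements of `A` and an element of `B` are, for every finite nonempty set `B` of integers. -/
theorem result (k : ℕ) (hk : 1 ≤ k) (ε : ℝ) (hε : 0 < ε) :
    ∃ c : ℝ, 0 < c ∧ ∀ (r : ℕ) (W : Fin r → Finset ℕ) (j : Fin r → ℕ),
      (∀ i, ∀ a ∈ W i, Squarefree a) →
      (∀ i, ∀ a ∈ W i, ∀ i', ∀ b ∈ W i', (i ≠ i' ∨ a ≠ b) → Nat.Coprime a b) →
      (∀ i, j i ≤ (W i).card) →
      ∀ A : Finset ℕ,
      A = (Fintype.piFinset fun i => (W i).powersetCard (j i)).image
        (fun S => ∏ i, ∏ a ∈ S i, a) →
      c * (A.card : ℝ) ^ ((k : ℝ) - ε) ≤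
          (((Fintype.piFinset fun _ : Fin k => A).image fun f => ∏ i, f i).card : ℝ) ∨
      ∀ B : Finset ℤ, B.Nonempty →
        c * (A.card : ℝ) ^ ((k : ℝ) - ε) * (B.card : ℝ) ^ (1 - ε) ≤
          ((((Fintype.piFinset fun _ : Fin k => A) ×ˢ B).image
            fun x => (∑ i, (x.1 i : ℤ)) + x.2).card : ℝ) := by
  obtain ⟨c, hc, h⟩ := Pool.Agent.T2h42.Uni.final k hk ε hε
  refine ⟨c, hc, fun r W j hsf hcop hj A hA => ?_⟩
  have h1 := h (Fin r) W j ⟨hsf, hcop⟩ hj
  have h2 : A = Pool.Agent.T2h42.Uni.UA W j := by
    ext z
    rw [hA, Pool.Agent.T2h42.Uni.mem_UA, Finset.mem_image]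
    simp only [Fintype.mem_piFinset, Finset.mem_powersetCard]
  rw [h2]
  convert h1

end Pool.Agent.Results.MP_120218_co.PrescribedFactors
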